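import Pool.Agent.H43.TD.Node
import Pool.Agent.H56.FD.Defs

/-!
# Project FD, gap theorem, route 2: integrality and size of the entries
-/

set_option autoImplicit false

namespace H43FD

open Polynomial Finset H56FD

theorem T4_eq (B N : ℕ) (I : Finset ℕ) (a : ℕ) : T4 B N I a = Pool.Agent.H43.TD.TI B N I a := by
  unfold T4 Pool.Agent.H43.TD.TI
  refine prod_congr rfl fun n _ => ?_
  congr 1
  refine prod_congr rfl fun i _ => ?_
  congr 2
  split_ifs <;> ring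

theorem DD_eq (i a : ℕ) : DD i a = Pool.Agent.H43.TD.bi a i := rfl

/-- integrality of the entries -/
theorem nrm_dvd {Y Z B i a s : ℕ} (hY : 1 ≤ Y) (hi : i ≤ Y) (ha : a ≤ Z * Y) (I : Finset ℕ) :
    (nrm Y Z B i : ℤ) ∣ (Nat.lcmUpto Y : ℤ) ^ (s + B) * (DD i a * T4 B (Z * Y) I a).coeff s := by
  rw [T4_eq, DD_eq]
  exact Pool.Agent.H43.TD.int_main hY I ha hi s

/-- size of the coefficients -/
theorem coeff_le {Y Z B i a s : ℕ} (_hY : 1 ≤ Y) (_hi : i ≤ Y) (ha : a ≤ Z * Y) (I : Finset ℕ) :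
    |(DD i a * T4 B (Z * Y) I a).coeff s| ≤
      ((nrm Y Z B i * (2 ^ (a + i) *
        ∏ n ∈ Icc 1 B, (8 ^ (n * (Z * Y)) * 4 ^ n * (3 * n * Z) ^ (n * (Z * Y)))) : ℕ) : ℤ) := by
  rw [T4_eq, DD_eq]
  refine (Pool.Agent.H43.TD.size_main (i := i) I ha s).trans ?_
  rw [← Nat.cast_mul]
  refine Nat.cast_le.2 ?_
  change nrm Y Z B i * _ ≤ nrm Y Z B i * _
  refine Nat.mul_le_mul_left _ ?_
  rw [add_comm i a]
  refine Nat.mul_le_mul_left _ (prod_le_prod' fun n _ => ?_)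
  refine Nat.mul_le_mul_left _ (Nat.pow_le_pow_left ?_ _)
  nlinarith [Nat.zero_le (n * Z)]

end H43FD
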